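import Pool.Agent.U562.WV.Stm
import Pool.Agent.U562.HD.Conv
import Pool.Agent.K7.H98.GMC.Arch
set_option autoImplicit false

/-! Project WV (helper562), job MAIN, by helper770. -/

open MeasureTheory Set Metric
open scoped ENNReal NNReal FourierTransform RealInnerProductSpace SchwartzMap Pointwise

namespace Pool.Agent.U770.WV

open Pool.Agent.U562.WV

/-- the antipodal map of the sphere -/
noncomputable def anti (u : sphere (0 : E 3) 1) : sphere (0 : E 3) 1 :=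
  ⟨-(u : E 3), by
    have h : ‖(u : E 3)‖ = 1 := norm_eq_of_mem_sphere u
    rw [mem_sphere_zero_iff_norm, norm_neg, h]⟩

lemma anti_continuous : Continuous anti :=
  Continuous.subtype_mk (continuous_neg.comp continuous_subtype_val) _

lemma toSphere_anti :
    Measure.map anti ((volume : Measure (E 3)).toSphere) = (volume : Measure (E 3)).toSphere := by
  ext s hs
  rw [Measure.map_apply anti_continuous.measurable hs,
    Measure.toSphere_apply' _ (anti_continuous.measurable hs), Measure.toSphere_apply' _ hs]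
  congr 1
  have h1 : (Ioo (0 : ℝ) 1 • ((↑) '' (anti ⁻¹' s)) : Set (E 3)) =
      -(Ioo (0 : ℝ) 1 • ((↑) '' s)) := by
    ext x
    rw [Set.mem_neg]
    constructor
    · rintro ⟨c, hc, _, ⟨u, hu, rfl⟩, rfl⟩
      refine ⟨c, hc, -(u : E 3), ⟨anti u, hu, rfl⟩, ?_⟩
      show c • -(u : E 3) = -(c • (u : E 3))
      rw [smul_neg]
    · rintro ⟨c, hc, _, ⟨u, hu, rfl⟩, h⟩
      have h' : c • (u : E 3) = -x := h
      refine ⟨c, hc, -(u : E 3), ⟨anti u, ?_, rfl⟩, ?_⟩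
      · show anti (anti u) ∈ s
        have : anti (anti u) = u := by
          apply Subtype.ext
          simp [anti]
        rw [this]; exact hu
      · show c • -(u : E 3) = x
        rw [smul_neg, h', neg_neg]
  rw [h1, Measure.measure_neg]

lemma sg_univ : sg univ = ENNReal.ofReal (4 * Real.pi) := by
  rw [sg, Measure.map_apply measurable_subtype_coe MeasurableSet.univ, preimage_univ]
  exact Pool.Agent.K7.H98.GMC.Arch.toSphere_univ

instance : IsFiniteMeasure sg := ⟨by rw [sg_univ]; exact ENNReal.ofReal_lt_top⟩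

lemma sg_neg (f : E 3 → ℝ≥0∞) (hf : Measurable f) : ∫⁻ w, f (-w) ∂sg = ∫⁻ w, f w ∂sg := by
  have hfn : Measurable fun w : E 3 => f (-w) := hf.comp measurable_neg
  rw [sg, lintegral_map hfn measurable_subtype_coe, lintegral_map hf measurable_subtype_coe]
  conv_rhs => rw [← toSphere_anti]
  exact (lintegral_map (f := fun a : sphere (0 : E 3) 1 => f a)
    (hf.comp measurable_subtype_coe) anti_continuous.measurable).symm

lemma sg_norm : ∀ᵐ w ∂sg, ‖w‖ = 1 := by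
  have hm : MeasurableSet {w : E 3 | ‖w‖ = 1} := (isClosed_eq continuous_norm continuous_const).measurableSet
  rw [sg, ae_map_iff measurable_subtype_coe.aemeasurable hm]
  exact Filter.Eventually.of_forall fun u => norm_eq_of_mem_sphere u

/-- joint measurability of `U` -/
lemma U_meas {g : E 3 → ℂ} (hg : ContDiff ℝ 1 g) : Measurable fun q : ℝ × E 3 => U g q.1 q.2 := by
  have hfd : Continuous (fderiv ℝ g) := hg.continuous_fderiv (by norm_num)
  have hc : Continuous fun z : (ℝ × E 3) × E 3 =>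
      g (z.1.2 + z.1.1 • z.2) + (z.1.1 : ℂ) * fderiv ℝ g (z.1.2 + z.1.1 • z.2) z.2 := by
    have h1 : Continuous fun z : (ℝ × E 3) × E 3 => z.1.2 + z.1.1 • z.2 := by fun_prop
    have h2 : Continuous fun z : (ℝ × E 3) × E 3 => fderiv ℝ g (z.1.2 + z.1.1 • z.2) z.2 :=
      (hfd.comp h1).clm_apply continuous_snd
    have h3 : Continuous fun z : (ℝ × E 3) × E 3 => ((z.1.1 : ℝ) : ℂ) := by fun_prop
    exact (hg.continuous.comp h1).add (h3.mul h2)
  have h := hc.stronglyMeasurable.integral_prod_right' (ν := sg)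
  exact (h.measurable.const_mul _)

/-- pointwise bound -/
lemma U_le {g : E 3 → ℂ} {F : E 3 → ℝ≥0∞} {δ T : ℝ} (hF : Measurable F)
    (hδ : 0 < δ) (h1 : ∀ y, ‖g y‖ₑ ≤ F y) (h2 : ∀ y, ENNReal.ofReal δ * ‖fderiv ℝ g y‖ₑ ≤ F y)
    {t : ℝ} (ht : t ∈ Ioc 0 T) (x : E 3) :
    ‖U g t x‖ₑ ≤ ENNReal.ofReal (1 + T / δ) * (ENNReal.ofReal (4 * Real.pi)⁻¹ *
      ∫⁻ w, F (x + t • w) ∂sg) := by
  have hpi : 0 < (4 * Real.pi)⁻¹ := by positivity
  have ht0 : 0 < t := ht.1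
  have hint : ∫⁻ w, ‖g (x + t • w) + (t : ℂ) * fderiv ℝ g (x + t • w) w‖ₑ ∂sg ≤
      ∫⁻ w, ENNReal.ofReal (1 + T / δ) * F (x + t • w) ∂sg := by
    apply lintegral_mono_ae
    filter_upwards [sg_norm] with w hw
    have e1 : ‖(t : ℂ) * fderiv ℝ g (x + t • w) w‖ₑ ≤ ENNReal.ofReal (T / δ) * F (x + t • w) := by
      have e2 : ‖fderiv ℝ g (x + t • w) w‖ₑ ≤ ‖fderiv ℝ g (x + t • w)‖ₑ := by
        have := (fderiv ℝ g (x + t • w)).le_opNorm w
        rw [hw, mul_one] at this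
        rw [← ofReal_norm, ← ofReal_norm]
        exact ENNReal.ofReal_le_ofReal this
      have e3 : ‖(t : ℂ)‖ₑ ≤ ENNReal.ofReal T := by
        rw [← ofReal_norm, Complex.norm_real, Real.norm_of_nonneg ht0.le]
        exact ENNReal.ofReal_le_ofReal ht.2
      have hT : 0 ≤ T := ht0.le.trans ht.2
      have e4 : ENNReal.ofReal T = ENNReal.ofReal (T / δ) * ENNReal.ofReal δ := by
        rw [← ENNReal.ofReal_mul (by positivity)]
        congr 1; field_simp
      calc ‖(t : ℂ) * fderiv ℝ g (x + t • w) w‖ₑ = ‖(t : ℂ)‖ₑ * ‖fderiv ℝ g (x + t • w) w‖ₑ :=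
            enorm_mul _ _
        _ ≤ ENNReal.ofReal T * ‖fderiv ℝ g (x + t • w)‖ₑ := mul_le_mul' e3 e2
        _ = ENNReal.ofReal (T / δ) * (ENNReal.ofReal δ * ‖fderiv ℝ g (x + t • w)‖ₑ) := by
            rw [e4, mul_assoc]
        _ ≤ _ := mul_le_mul' le_rfl (h2 _)
    have hT : 0 ≤ T := ht0.le.trans ht.2
    calc ‖g (x + t • w) + (t : ℂ) * fderiv ℝ g (x + t • w) w‖ₑ
        ≤ ‖g (x + t • w)‖ₑ + ‖(t : ℂ) * fderiv ℝ g (x + t • w) w‖ₑ := enorm_add_le _ _
      _ ≤ F (x + t • w) + ENNReal.ofReal (T / δ) * F (x + t • w) := add_le_add (h1 _) e1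
      _ = ENNReal.ofReal (1 + T / δ) * F (x + t • w) := by
          rw [ENNReal.ofReal_add zero_le_one (by positivity), ENNReal.ofReal_one, add_mul, one_mul]
  have hFm : Measurable fun w => F (x + t • w) := hF.comp (by fun_prop)
  rw [lintegral_const_mul _ hFm] at hint
  calc ‖U g t x‖ₑ = ENNReal.ofReal (4 * Real.pi)⁻¹ *
        ‖∫ w, (g (x + t • w) + (t : ℂ) * fderiv ℝ g (x + t • w) w) ∂sg‖ₑ := by
        rw [U, enorm_mul, ← ofReal_norm, Complex.norm_real, Real.norm_of_nonneg hpi.le]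
    _ ≤ ENNReal.ofReal (4 * Real.pi)⁻¹ * (ENNReal.ofReal (1 + T / δ) * ∫⁻ w, F (x + t • w) ∂sg) :=
        mul_le_mul' le_rfl ((enorm_integral_le_lintegral_enorm _).trans hint)
    _ = _ := by ring

/-- Jensen for the spherical mean -/
lemma mean_jens {F : E 3 → ℝ≥0∞} (hF : Measurable F) {q : ℝ} (hq : 1 ≤ q) (t : ℝ) (x : E 3) :
    (ENNReal.ofReal (4 * Real.pi)⁻¹ * ∫⁻ w, F (x + t • w) ∂sg) ^ q ≤
      ENNReal.ofReal (4 * Real.pi)⁻¹ * ∫⁻ w, F (x + t • w) ^ q ∂sg := by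
  have hq0 : 0 ≤ q := by linarith
  have hpi : 0 < 4 * Real.pi := by positivity
  have hFm : Measurable fun w => F (x + t • w) := hF.comp (by fun_prop)
  have h := Pool.Agent.U562.HD.jens sg hq hFm.aemeasurable
  rw [sg_univ] at h
  rw [ENNReal.mul_rpow_of_nonneg _ _ hq0]
  calc ENNReal.ofReal (4 * Real.pi)⁻¹ ^ q * (∫⁻ w, F (x + t • w) ∂sg) ^ q
      ≤ ENNReal.ofReal (4 * Real.pi)⁻¹ ^ q * ((∫⁻ w, F (x + t • w) ^ q ∂sg) *
          ENNReal.ofReal (4 * Real.pi) ^ (q - 1)) := mul_le_mul' le_rfl h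
    _ = (ENNReal.ofReal (4 * Real.pi)⁻¹ ^ q * ENNReal.ofReal (4 * Real.pi) ^ (q - 1)) *
          (∫⁻ w, F (x + t • w) ^ q ∂sg) := by ring
    _ = _ := by
        congr 1
        rw [ENNReal.ofReal_rpow_of_pos (by positivity), ENNReal.ofReal_rpow_of_pos hpi,
          ← ENNReal.ofReal_mul (by positivity)]
        congr 1
        rw [Real.inv_rpow hpi.le, Real.rpow_sub hpi, Real.rpow_one]
        have : (4 * Real.pi) ^ q ≠ 0 := (Real.rpow_pos_of_pos hpi q).ne'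
        field_simp

lemma fubini {F : E 3 → ℝ≥0∞} (hF : Measurable F) {H : ℝ → E 3 → ℝ≥0∞}
    (hH : Measurable fun q : ℝ × E 3 => H q.1 q.2) (t : ℝ) :
    ∫⁻ x, H t x * ∫⁻ w, F (x + t • w) ∂sg =
      ∫⁻ y, F y * ∫⁻ w, H t (y + t • w) ∂sg := by
  have hHt : Measurable (H t) := hH.comp (measurable_const.prodMk measurable_id)
  have m1 : Measurable fun q : E 3 × E 3 => H t q.1 * F (q.1 + t • q.2) :=
    (hHt.comp measurable_fst).mul (hF.comp (by fun_prop))
  have m2 : Measurable fun q : E 3 × E 3 => H t (q.1 + t • q.2) * F q.1 :=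
    (hHt.comp (by fun_prop)).mul (hF.comp measurable_fst)
  have m3 : ∀ w : E 3, Measurable fun x : E 3 => H t (x - t • w) * F x := fun w =>
    (hHt.comp (by fun_prop)).mul hF
  calc ∫⁻ x, H t x * ∫⁻ w, F (x + t • w) ∂sg = ∫⁻ x, ∫⁻ w, H t x * F (x + t • w) ∂sg := by
        congr 1; funext x
        exact (lintegral_const_mul (f := fun w => F (x + t • w)) _ (hF.comp (by fun_prop))).symm
    _ = ∫⁻ w, (∫⁻ x, H t x * F (x + t • w)) ∂sg := lintegral_lintegral_swap m1.aemeasurable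
    _ = ∫⁻ w, (∫⁻ y, H t (y - t • w) * F y) ∂sg := by
        congr 1; funext w
        have := lintegral_add_right_eq_self (μ := (volume : Measure (E 3)))
          (fun x : E 3 => H t (x - t • w) * F x) (t • w)
        rw [← this]
        simp only [add_sub_cancel_right]
    _ = ∫⁻ w, (∫⁻ y, H t (y + t • w) * F y) ∂sg := by
        have hm : Measurable fun w : E 3 => ∫⁻ y, H t (y + t • w) * F y :=
          Measurable.lintegral_prod_right' (f := fun q : E 3 × E 3 => H t (q.2 + t • q.1) * F q.2)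
            ((hHt.comp (by fun_prop)).mul (hF.comp measurable_snd))
        rw [← sg_neg _ hm]
        congr 1; funext w
        congr 1; funext y
        rw [smul_neg, ← sub_eq_add_neg]
    _ = ∫⁻ y, ∫⁻ w, H t (y + t • w) * F y ∂sg := (lintegral_lintegral_swap m2.aemeasurable).symm
    _ = _ := by
        congr 1; funext y
        rw [mul_comm]
        exact lintegral_mul_const (f := fun w => H t (y + t • w)) _ (hHt.comp (by fun_prop))

lemma m8 {G : ℝ → E 3 → ℝ≥0∞} (hG : Measurable fun q : ℝ × E 3 => G q.1 q.2) (y : E 3) :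
    Measurable fun q : ℝ × E 3 => G q.1 (y + q.1 • q.2) := by
  have hy : Measurable fun q : ℝ × E 3 => ((q.1, y + q.1 • q.2) : ℝ × E 3) :=
    measurable_fst.prodMk (measurable_const.add (measurable_fst.smul measurable_snd))
  exact hG.comp hy

lemma swp {G : ℝ → E 3 → ℝ≥0∞} (hG : Measurable fun q : ℝ × E 3 => G q.1 q.2) (y : E 3)
    (c : ℝ≥0∞) (T : ℝ) :
    ∫⁻ t in Ioc 0 T, c * ∫⁻ w, G t (y + t • w) ∂sg =
      c * ∫⁻ w, (∫⁻ t in Ioc 0 T, G t (y + t • w)) ∂sg := by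
  have m7 := m8 hG y
  have m9 : Measurable fun t : ℝ => ∫⁻ w, G t (y + t • w) ∂sg := m7.lintegral_prod_right'
  rw [lintegral_const_mul _ m9, lintegral_lintegral_swap m7.aemeasurable]

theorem t_MAIN : S_KEY → S_MAIN := by
  intro hK p hp g F δ T hg hF hδ hT h1 h2
  have hpi : 0 < 4 * Real.pi := by positivity
  have hU := U_meas hg
  have hq : 1 ≤ p - 2 := by linarith
  set c : ℝ≥0∞ := ENNReal.ofReal ((1 + T / δ) ^ (p - 2)) with hc
  have hpos : 0 < 1 + T / δ := by positivity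
  have hc' : ENNReal.ofReal (1 + T / δ) ^ (p - 2) = c := ENNReal.ofReal_rpow_of_pos hpos
  have hH : Measurable fun q : ℝ × E 3 => ‖U g q.1 q.2‖ₑ ^ 2 := hU.enorm.pow_const 2
  have hFq : Measurable fun y => F y ^ (p - 2) := hF.pow_const _
  have hpt : ∀ t ∈ Ioc 0 T, ∀ x, ‖U g t x‖ₑ ^ p ≤
      c * (‖U g t x‖ₑ ^ 2 * ∫⁻ w, F (x + t • w) ^ (p - 2) ∂sg) := by
    intro t ht x
    have hle := U_le hF hδ h1 h2 ht x
    have e1 : ‖U g t x‖ₑ ^ p = ‖U g t x‖ₑ ^ 2 * ‖U g t x‖ₑ ^ (p - 2) := by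
      rw [← ENNReal.rpow_natCast (‖U g t x‖ₑ) 2, ← ENNReal.rpow_add_of_nonneg _ _ (by norm_num)
        (by linarith)]
      congr 1; push_cast; ring
    have e2 : ‖U g t x‖ₑ ^ (p - 2) ≤ c * ∫⁻ w, F (x + t • w) ^ (p - 2) ∂sg := by
      calc ‖U g t x‖ₑ ^ (p - 2) ≤ (ENNReal.ofReal (1 + T / δ) * (ENNReal.ofReal (4 * Real.pi)⁻¹ *
            ∫⁻ w, F (x + t • w) ∂sg)) ^ (p - 2) := ENNReal.rpow_le_rpow hle (by linarith)
        _ = c * (ENNReal.ofReal (4 * Real.pi)⁻¹ * ∫⁻ w, F (x + t • w) ∂sg) ^ (p - 2) := by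
            rw [ENNReal.mul_rpow_of_nonneg _ _ (by linarith), hc']
        _ ≤ c * (ENNReal.ofReal (4 * Real.pi)⁻¹ * ∫⁻ w, F (x + t • w) ^ (p - 2) ∂sg) :=
            mul_le_mul' le_rfl (mean_jens hF hq t x)
        _ ≤ c * (1 * ∫⁻ w, F (x + t • w) ^ (p - 2) ∂sg) := by
            refine mul_le_mul' le_rfl (mul_le_mul' ?_ le_rfl)
            rw [← ENNReal.ofReal_one]
            apply ENNReal.ofReal_le_ofReal
            apply inv_le_one_of_one_le₀
            nlinarith [Real.pi_gt_three]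
        _ = _ := by rw [one_mul]
    rw [e1]
    calc ‖U g t x‖ₑ ^ 2 * ‖U g t x‖ₑ ^ (p - 2)
        ≤ ‖U g t x‖ₑ ^ 2 * (c * ∫⁻ w, F (x + t • w) ^ (p - 2) ∂sg) := mul_le_mul' le_rfl e2
      _ = _ := by ring
  have m4 : ∀ t : ℝ, Measurable fun x => ‖U g t x‖ₑ ^ 2 * ∫⁻ w, F (x + t • w) ^ (p - 2) ∂sg := by
    intro t
    refine (hH.comp (measurable_const.prodMk measurable_id)).mul ?_
    exact Measurable.lintegral_prod_right' (f := fun q : E 3 × E 3 => F (q.1 + t • q.2) ^ (p - 2))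
      (hFq.comp (by fun_prop))
  have m5 : Measurable fun q : (ℝ × E 3) × E 3 => ‖U g q.1.1 (q.1.2 + q.1.1 • q.2)‖ₑ ^ 2 :=
    hH.comp (f := fun q : (ℝ × E 3) × E 3 => (q.1.1, q.1.2 + q.1.1 • q.2)) (by fun_prop)
  have m6 : Measurable fun q : ℝ × E 3 => ∫⁻ w, ‖U g q.1 (q.2 + q.1 • w)‖ₑ ^ 2 ∂sg :=
    m5.lintegral_prod_right'
  calc ∫⁻ t in Ioc 0 T, (∫⁻ x, ‖U g t x‖ₑ ^ p)
      ≤ ∫⁻ t in Ioc 0 T, c * (∫⁻ x, ‖U g t x‖ₑ ^ 2 * ∫⁻ w, F (x + t • w) ^ (p - 2) ∂sg) := by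
        refine setLIntegral_mono' measurableSet_Ioc fun t ht => ?_
        rw [← lintegral_const_mul _ (m4 t)]
        exact lintegral_mono fun x => hpt t ht x
    _ = ∫⁻ t in Ioc 0 T, c * (∫⁻ y, F y ^ (p - 2) * ∫⁻ w, ‖U g t (y + t • w)‖ₑ ^ 2 ∂sg) := by
        congr 1; funext t
        rw [fubini (H := fun t x => ‖U g t x‖ₑ ^ 2) hFq hH t]
    _ = c * ∫⁻ t in Ioc 0 T, (∫⁻ y, F y ^ (p - 2) * ∫⁻ w, ‖U g t (y + t • w)‖ₑ ^ 2 ∂sg) := by
        refine lintegral_const_mul _ ?_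
        exact Measurable.lintegral_prod_right' (f := fun q : ℝ × E 3 => F q.2 ^ (p - 2) *
          ∫⁻ w, ‖U g q.1 (q.2 + q.1 • w)‖ₑ ^ 2 ∂sg) ((hFq.comp measurable_snd).mul m6)
    _ = c * ∫⁻ y, (∫⁻ t in Ioc 0 T, F y ^ (p - 2) * ∫⁻ w, ‖U g t (y + t • w)‖ₑ ^ 2 ∂sg) := by
        congr 1
        exact lintegral_lintegral_swap (((hFq.comp measurable_snd).mul m6).aemeasurable)
    _ = c * ∫⁻ y, F y ^ (p - 2) * ∫⁻ w, (∫⁻ t in Ioc 0 T, ‖U g t (y + t • w)‖ₑ ^ 2) ∂sg := by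
        congr 2; funext y
        exact swp (G := fun t x => ‖U g t x‖ₑ ^ 2) hH y _ T
    _ ≤ _ := by
        refine mul_le_mul' le_rfl (lintegral_mono fun y => mul_le_mul' le_rfl ?_)
        exact hK g hg T y hT

theorem t_TRIV : S_TRIV := by
  intro p hp g F δ T hg hF hδ hT h1 h2
  have hpi : 0 < 4 * Real.pi := by positivity
  have hpos : 0 < 1 + T / δ := by positivity
  have hFq : Measurable fun y => F y ^ p := hF.pow_const _
  set c : ℝ≥0∞ := ENNReal.ofReal ((1 + T / δ) ^ p) with hc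
  have hc' : ENNReal.ofReal (1 + T / δ) ^ p = c := ENNReal.ofReal_rpow_of_pos hpos
  have hpt : ∀ t ∈ Ioc 0 T, ∀ x, ‖U g t x‖ₑ ^ p ≤
      c * (ENNReal.ofReal (4 * Real.pi)⁻¹ * ∫⁻ w, F (x + t • w) ^ p ∂sg) := by
    intro t ht x
    calc ‖U g t x‖ₑ ^ p ≤ (ENNReal.ofReal (1 + T / δ) * (ENNReal.ofReal (4 * Real.pi)⁻¹ *
          ∫⁻ w, F (x + t • w) ∂sg)) ^ p :=
          ENNReal.rpow_le_rpow (U_le hF hδ h1 h2 ht x) (by linarith)
      _ = c * (ENNReal.ofReal (4 * Real.pi)⁻¹ * ∫⁻ w, F (x + t • w) ∂sg) ^ p := by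
          rw [ENNReal.mul_rpow_of_nonneg _ _ (by linarith), hc']
      _ ≤ _ := mul_le_mul' le_rfl (mean_jens hF hp t x)
  have m4 : ∀ t : ℝ, Measurable fun x => ∫⁻ w, F (x + t • w) ^ p ∂sg := fun t =>
    Measurable.lintegral_prod_right' (f := fun q : E 3 × E 3 => F (q.1 + t • q.2) ^ p)
      (hFq.comp (by fun_prop))
  have hx : ∀ t : ℝ, ∫⁻ x, (∫⁻ w, F (x + t • w) ^ p ∂sg) =
      ENNReal.ofReal (4 * Real.pi) * ∫⁻ y, F y ^ p := by
    intro t
    rw [lintegral_lintegral_swap (f := fun x w => F (x + t • w) ^ p)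
      (hFq.comp (f := fun q : E 3 × E 3 => q.1 + t • q.2) (by fun_prop)).aemeasurable]
    have : ∀ w : E 3, ∫⁻ x, F (x + t • w) ^ p = ∫⁻ y, F y ^ p := fun w =>
      lintegral_add_right_eq_self (fun y => F y ^ p) (t • w)
    simp only [this]
    rw [lintegral_const, sg_univ, mul_comm]
  calc ∫⁻ t in Ioc 0 T, (∫⁻ x, ‖U g t x‖ₑ ^ p)
      ≤ ∫⁻ t in Ioc 0 T, c * (∫⁻ y, F y ^ p) := by
        refine setLIntegral_mono' measurableSet_Ioc fun t ht => ?_
        calc ∫⁻ x, ‖U g t x‖ₑ ^ p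
            ≤ ∫⁻ x, c * (ENNReal.ofReal (4 * Real.pi)⁻¹ * ∫⁻ w, F (x + t • w) ^ p ∂sg) :=
              lintegral_mono fun x => hpt t ht x
          _ = c * (ENNReal.ofReal (4 * Real.pi)⁻¹ *
                (ENNReal.ofReal (4 * Real.pi) * ∫⁻ y, F y ^ p)) := by
              rw [lintegral_const_mul _ ((m4 t).const_mul _), lintegral_const_mul _ (m4 t), hx t]
          _ = c * (∫⁻ y, F y ^ p) := by
              rw [← mul_assoc (ENNReal.ofReal (4 * Real.pi)⁻¹), ← ENNReal.ofReal_mul (by positivity),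
                inv_mul_cancel₀ hpi.ne', ENNReal.ofReal_one, one_mul]
    _ = _ := by
        rw [lintegral_const, Measure.restrict_apply MeasurableSet.univ, univ_inter,
          Real.volume_Ioc, sub_zero, ENNReal.ofReal_mul hT.le, hc]
        ring

end Pool.Agent.U770.WV
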